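import Pool.Agent.W960.KS.A3

/-! # Smoothed analysis of the number of limit cycles with noise of equal variance: almost linear
growth with the degree

For every planar polynomial system of degree at most `n`: after adding independent Gaussian noise of
standard deviation `σ` to the coefficients of all monomials of degree at most `n`, the expected number
of all closed orbits in the plane is at most
`5 * 10 ^ 14 * n * X * (1 + log (n X)) * min (n ^ 2) ((1 + log n) ^ 2 * X ^ 2)`, where
`X = 1 + |c₀| / σ`. For every fixed `X` this is `O(n (log n) ^ 3)`. -/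

open Set MeasureTheory
open scoped ENNReal

namespace Pool.Agent.Results.MP_95e7ec_an.KacSmoothed

/-- the exponents `(i, j)` with `i + j ≤ n` -/
def exponents (n : ℕ) : Finset (ℕ × ℕ) :=
  (Finset.range (n + 1) ×ˢ Finset.range (n + 1)).filter fun m => m.1 + m.2 ≤ n

/-- The number of all closed orbits (ranges of nonconstant periodic solutions, limit cycles or not) in
the plane of the system `x' = ∑ a_{ij} x^i y^j`, `y' = ∑ b_{ij} x^i y^j`, `i + j ≤ n`, where
`c (i,j) = (a_{ij}, b_{ij})`. -/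
noncomputable def closedOrbits {n : ℕ} (c : exponents n → ℝ × ℝ) : ℝ≥0∞ :=
  (({C : Set (ℝ × ℝ) | ∃ γ : ℝ → ℝ × ℝ, ∃ T : ℝ, 0 < T ∧
    (∀ t : ℝ, HasDerivAt γ
      (∑ m : exponents n, (c m).1 * ((γ t).1 ^ m.1.1 * (γ t).2 ^ m.1.2),
       ∑ m : exponents n, (c m).2 * ((γ t).1 ^ m.1.1 * (γ t).2 ^ m.1.2)) t) ∧
    (∀ t : ℝ, γ (t + T) = γ t) ∧ (∃ s t : ℝ, γ s ≠ γ t) ∧ C = Set.range γ}.encard : ℕ∞) : ℝ≥0∞)

/-- the Euclidean length of the vector of all coefficients -/
noncomputable def size {n : ℕ} (c : exponents n → ℝ × ℝ) : ℝ :=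
  √(∑ m : exponents n, ((c m).1 ^ 2 + (c m).2 ^ 2))

/-- the system with coefficients `c₀ + σ g` -/
def perturbed {n : ℕ} (c₀ : exponents n → ℝ × ℝ) (σ : ℝ) (g : exponents n → ℝ × ℝ) :
    exponents n → ℝ × ℝ :=
  fun m => ((c₀ m).1 + σ * (g m).1, (c₀ m).2 + σ * (g m).2)

lemma closedOrbits_eq {n : ℕ} (c : exponents n → ℝ × ℝ) :
    closedOrbits c = H709R2.NP (S := W960.HR.T n) c := by
  have h1 : ∀ p : ℝ × ℝ, (∑ m : exponents n, (c m).1 * (p.1 ^ m.1.1 * p.2 ^ m.1.2),
      ∑ m : exponents n, (c m).2 * (p.1 ^ m.1.1 * p.2 ^ m.1.2)) =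
        H709R2.fld (S := W960.HR.T n) c p := by
    intro p
    unfold H709R2.fld
    ext
    · simp only [Prod.fst_sum, Prod.smul_fst, smul_eq_mul]
      exact Finset.sum_congr rfl fun m _ => mul_comm _ _
    · simp only [Prod.snd_sum, Prod.smul_snd, smul_eq_mul]
      exact Finset.sum_congr rfl fun m _ => mul_comm _ _
  unfold H709R2.NP closedOrbits H709R2.ClosedOrbit
  simp only [h1]

/-- Let `c₀` be any system of degree at most `n ≥ 1` and `σ > 0`. The number of closed orbits is a
Borel function of the coefficients. If `g` is a vector of independent standard normal variables, the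
expected number of closed orbits of the system with coefficients `c₀ + σ g` is at most
`5 * 10 ^ 14 * n * X * (1 + log (n X)) * min (n ^ 2) ((1 + log n) ^ 2 * X ^ 2)`, where
`X = 1 + |c₀| / σ`. -/
theorem result (n : ℕ) (hn : 1 ≤ n) (c₀ : exponents n → ℝ × ℝ) (σ : ℝ) (hσ : 0 < σ) :
    Measurable (closedOrbits (n := n)) ∧
    ∫⁻ g, closedOrbits (perturbed c₀ σ g)
      ∂(Measure.pi fun _ : exponents n =>
        (ProbabilityTheory.gaussianReal 0 1).prod (ProbabilityTheory.gaussianReal 0 1)) ≤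
      ENNReal.ofReal (5 * 10 ^ 14 * n * (1 + size c₀ / σ) *
        (1 + Real.log (n * (1 + size c₀ / σ))) *
        min ((n:ℝ) ^ 2) ((1 + Real.log n) ^ 2 * (1 + size c₀ / σ) ^ 2)) := by
  have hc : closedOrbits (n := n) = H709R2.NP (S := W960.HR.T n) :=
    funext fun c => closedOrbits_eq c
  rw [hc]
  exact ⟨H709R2.measurable_NP, W960.KS.kac_smoothed hn c₀ hσ⟩

end Pool.Agent.Results.MP_95e7ec_an.KacSmoothed
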