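import Pool.Agent.H709Q.Meas

/-! # Quadratic systems: an absolute bound for the mean number of closed orbits

For every single quadratic system the number of ALL closed orbits in the plane of the rotated
system has mean at most `246 * 10 ^ 6` over the rotation angle; hence for every probability measure
on the quadratic systems which is invariant under the rotations of the vector field the expected
number of closed orbits in the plane is at most `246 * 10 ^ 6`. -/

open Set MeasureTheory
open scoped ENNReal

namespace Pool.Agent.Results.MP_95e7ec_an.QuadraticRotationMean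

/-- The quadratic vector field with coefficient vectors `c 0, …, c 5`:
`c₀ + x c₁ + y c₂ + x² c₃ + x y c₄ + y² c₅`. -/
def quadratic (c : Fin 6 → ℝ × ℝ) (z : ℝ × ℝ) : ℝ × ℝ :=
  ((c 0).1 + (c 1).1 * z.1 + (c 2).1 * z.2 + (c 3).1 * z.1 ^ 2 + (c 4).1 * (z.1 * z.2) +
      (c 5).1 * z.2 ^ 2,
    (c 0).2 + (c 1).2 * z.1 + (c 2).2 * z.2 + (c 3).2 * z.1 ^ 2 + (c 4).2 * (z.1 * z.2) +
      (c 5).2 * z.2 ^ 2)

/-- the number of all closed orbits in the plane `ℝ²` (images of nonconstant periodic solutions,
limit cycles or not) of the vector field `V` -/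
noncomputable def closedOrbits (V : ℝ × ℝ → ℝ × ℝ) : ℝ≥0∞ :=
  (({C : Set (ℝ × ℝ) | ∃ γ : ℝ → ℝ × ℝ, ∃ T : ℝ, 0 < T ∧ (∀ t : ℝ, HasDerivAt γ (V (γ t)) t) ∧
    (∀ t : ℝ, γ (t + T) = γ t) ∧ (∃ s t : ℝ, γ s ≠ γ t) ∧ C = Set.range γ}.encard : ℕ∞) : ℝ≥0∞)

/-- the rotation of a vector by the angle `α` -/
noncomputable def rotation (α : ℝ) (v : ℝ × ℝ) : ℝ × ℝ :=
  (Real.cos α * v.1 - Real.sin α * v.2, Real.sin α * v.1 + Real.cos α * v.2)

/-- the coefficients of the system rotated by the angle `α` -/
noncomputable def rotated (α : ℝ) (c : Fin 6 → ℝ × ℝ) : Fin 6 → ℝ × ℝ := fun i => rotation α (c i)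

lemma quadratic_eq (c : Fin 6 → ℝ × ℝ) : quadratic c = H709Q.qf c := by
  funext z
  unfold quadratic H709Q.qf
  ext <;> simp <;> ring

lemma closedOrbits_eq (c : Fin 6 → ℝ × ℝ) : closedOrbits (quadratic c) = H709Q.NQ c := by
  unfold closedOrbits H709Q.NQ H709R2.ClosedOrbit
  rw [quadratic_eq]

lemma rotated_eq (α : ℝ) (c : Fin 6 → ℝ × ℝ) : rotated α c = H709Q.rc α c := rfl

/-- **The mean number of closed orbits of quadratic systems is bounded by an absolute constant.**

* The number of closed orbits in the plane of a quadratic system is a Borel function of the twelve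
  coefficients.
* For every quadratic system the number of closed orbits in the plane of the system rotated by the
  angle `α` has integral at most `1544 * 10 ^ 6` over `(0, 2π]`.
* For every probability measure on the space of quadratic systems which is invariant under the
  rotations, the expected number of closed orbits in the plane is at most `246 * 10 ^ 6`. -/
theorem result :
    Measurable (fun c : Fin 6 → ℝ × ℝ => closedOrbits (quadratic c)) ∧
    (∀ c : Fin 6 → ℝ × ℝ,
      (∀ α z, quadratic (rotated α c) z = rotation α (quadratic c z)) ∧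
      ∫⁻ α in Ioc 0 (2 * Real.pi), closedOrbits (quadratic (rotated α c)) ≤
        ENNReal.ofReal (1544 * 10 ^ 6)) ∧
    (∀ μ : Measure (Fin 6 → ℝ × ℝ), IsProbabilityMeasure μ →
      (∀ α, μ.map (rotated α) = μ) →
        ∫⁻ c, closedOrbits (quadratic c) ∂μ ≤ ENNReal.ofReal (246 * 10 ^ 6)) := by
  have h : (fun c : Fin 6 → ℝ × ℝ => closedOrbits (quadratic c)) = H709Q.NQ :=
    funext closedOrbits_eq
  refine ⟨?_, fun c => ⟨fun α z => ?_, ?_⟩, fun μ hμ hinv => ?_⟩
  · rw [h]
    exact H709Q.measurable_NQ
  · rw [quadratic_eq, quadratic_eq]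
    exact H709Q.qf_rc α c z
  · simp only [closedOrbits_eq]
    exact (H709Q.main_single c).2
  · simp only [closedOrbits_eq]
    exact H709Q.main_measure μ hinv

end Pool.Agent.Results.MP_95e7ec_an.QuadraticRotationMean
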