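import Pool.Agent.W960.HQ.Finq

/-! # Moments of order less than one of the number of closed orbits over the rotations of a system

For every single planar polynomial system of degree at most `n` and every `0 < q < 1`: the integral
over the rotation angle of the `q`-th power of the number of ALL closed orbits in the plane of the
rotated system is at most `10 ^ 11 * (n + 1) ^ 9 / (1 - q) ^ 2`. -/

open Set MeasureTheory
open scoped ENNReal

namespace Pool.Agent.Results.MP_95e7ec_an.RotationMoments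

/-- the vector field `(P, Q)` rotated by the angle `α` -/
noncomputable def rotated (P Q : MvPolynomial (Fin 2) ℝ) (α : ℝ) (z : ℝ × ℝ) : ℝ × ℝ :=
  (Real.cos α * MvPolynomial.eval ![z.1, z.2] P - Real.sin α * MvPolynomial.eval ![z.1, z.2] Q,
    Real.sin α * MvPolynomial.eval ![z.1, z.2] P + Real.cos α * MvPolynomial.eval ![z.1, z.2] Q)

/-- the number of all closed orbits in the plane `ℝ²` (images of nonconstant periodic solutions,
limit cycles or not, of all sizes and shapes) of the vector field `V` -/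
noncomputable def closedOrbits (V : ℝ × ℝ → ℝ × ℝ) : ℝ≥0∞ :=
  (({C : Set (ℝ × ℝ) | ∃ γ : ℝ → ℝ × ℝ, ∃ T : ℝ, 0 < T ∧ (∀ t : ℝ, HasDerivAt γ (V (γ t)) t) ∧
    (∀ t : ℝ, γ (t + T) = γ t) ∧ (∃ s t : ℝ, γ s ≠ γ t) ∧ C = Set.range γ}.encard : ℕ∞) : ℝ≥0∞)

/-- **Moments of order less than one.** For all polynomials `P, Q` of degree at most `n`, not both
zero, and `0 < q < 1`, the `q`-th power of the number of all closed orbits in the plane of the
system `(P, Q)` rotated by `α` has a Borel majorant whose integral over `α ∈ (0, 2π)` is at most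
`10 ^ 11 * (n + 1) ^ 9 / (1 - q) ^ 2`. -/
theorem result (n : ℕ) (P Q : MvPolynomial (Fin 2) ℝ) (hP : P.totalDegree ≤ n)
    (hQ : Q.totalDegree ≤ n) (hne : P ≠ 0 ∨ Q ≠ 0) (q : ℝ) (hq0 : 0 < q) (hq1 : q < 1) :
    ∃ g : ℝ → ℝ≥0∞, Measurable g ∧
      (∀ α ∈ Ioo 0 (2 * Real.pi), closedOrbits (rotated P Q α) ^ q ≤ g α) ∧
      ∫⁻ α in Ioo 0 (2 * Real.pi), g α ≤
        ENNReal.ofReal (10 ^ 11 * (n + 1) ^ 9 / (1 - q) ^ 2) :=
  W960.HQ.moments hP hQ hne hq0 hq1

end Pool.Agent.Results.MP_95e7ec_an.RotationMoments
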